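import Pool.Agent.Lib.MP_6bd702_perq.TwoD
import Pool.Agent.Lib.MP_6bd702_perc.CylArmB

/-!
# Half-plane: exact upper bound for a wrapping cluster (task HPA)
-/

set_option autoImplicit false

namespace Pool.Agent.Perc

open Finset Filter Topology

/-- The cluster of `(0, 0)` in the upper half of the cylinder wraps around. -/
def wrapU (L M : ℕ) : Set Cfg :=
  {ω | Conn (perC L ω) {f | 0 ≤ f.2 ∧ f.2 < M} (0, 0) ((L : ℤ), 0)}

theorem HPA.isAnn_run {L M : ℕ} (hL : L % 2 = 0) (hL0 : 0 < L) (ω : Cfg) :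
    IsAnn L (run L ω M (s0 L)) := by
  obtain ⟨s, g, h1, _, _, h4⟩ := sound_run (M := M) hL hL0 ω (j := M) le_rfl
  rw [h4, Nat.sub_self]
  exact h1

theorem v0_of_wrapU {L M : ℕ} (hL : L % 2 = 0) (hL0 : 0 < L) {ω : Cfg} (h : ω ∈ wrapU L M) :
    (run L ω M (s0 L)).2 = fun _ => false := by
  have hs := complete_run hL hL0 ω (k := 0) (l := (L : ℤ)) h
  funext x
  by_cases hx : L ≤ x
  · exact (HPA.isAnn_run hL hL0 ω).out x hx
  · rw [not_le] at hx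
    have hp := (HPA.isAnn_run (M := M) hL hL0 ω).nc
    by_contra hne
    rw [Bool.not_eq_false] at hne
    have h2 := hs (x : ℤ)
    have h3 : (x : ℤ) / (L : ℤ) = 0 := Int.ediv_eq_zero_of_lt (by omega) (by omega)
    have h4 : ((x : ℤ) % (L : ℤ)).toNat = x := by
      rw [Int.emod_eq_of_lt (by omega) (by omega), Int.toNat_natCast]
    have h5 : (run L ω M (s0 L)).1 x < L := hp.lt x hx
    unfold liftS at h2
    rw [h3, h4, if_pos hne] at h2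
    split_ifs at h2 with h6 <;> omega

theorem HPA.depOn_wrapU (L M : ℕ) (hL0 : 0 < L) :
    DepOn (RF 0 (L : ℤ) 0 M : Set (ℤ × ℤ)) (wrapU L M) := by
  intro ω ω' h
  refine depOn_conn {f | 0 ≤ f.2 ∧ f.2 < (M : ℤ)} (0, 0) ((L : ℤ), 0) _ _ fun f hf => ?_
  unfold perC
  apply h
  rw [mem_coe, CylArmB.mem_RF]
  exact ⟨⟨Int.emod_nonneg _ (by omega), Int.emod_lt_of_pos _ (by omega)⟩, hf.1, hf.2⟩

theorem HPA.pr_wrapU_le_avg {n : ℕ} (hn : 0 < n) (M : ℕ) :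
    pr (RF 0 ((2 * n : ℕ) : ℤ) 0 M) (wrapU (2 * n) M) ≤
      (((avgL (2 * n))^[M] v0) (s0 (2 * n))).re := by
  rw [← ex_run]
  rw [ex_indicator {ω : Cfg | (run (2 * n) ω M (s0 (2 * n))).2 = fun _ => false}
    (fun ω => v0 (run (2 * n) ω M (s0 (2 * n))))
    (fun ω hω => if_pos hω) (fun ω hω => if_neg hω)]
  rw [Complex.ofReal_re]
  exact pr_mono _ fun ω hω => v0_of_wrapU (by omega) (by omega) hω

theorem HPA.pr_wrapU_mono {L : ℕ} (hL0 : 0 < L) {M M' : ℕ} (h : M ≤ M') :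
    pr (RF 0 (L : ℤ) 0 M) (wrapU L M) ≤ pr (RF 0 (L : ℤ) 0 M') (wrapU L M') := by
  rw [← pr_eq_of_depOn (S' := RF 0 (L : ℤ) 0 M') (HPA.depOn_wrapU L M hL0)]
  · refine pr_mono _ fun ω hω => ?_
    have hF : ({f | 0 ≤ f.2 ∧ f.2 < (M : ℤ)} : Set (ℤ × ℤ)) ⊆ {f | 0 ≤ f.2 ∧ f.2 < (M' : ℤ)} :=
      fun f hf => ⟨hf.1, lt_of_lt_of_le hf.2 (by exact_mod_cast h)⟩
    exact Conn.mono hF hω
  · intro f hf
    rw [CylArmB.mem_RF] at hf ⊢
    exact ⟨hf.1, hf.2.1, lt_of_lt_of_le hf.2.2 (by exact_mod_cast h)⟩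

theorem pr_wrapU_le {n : ℕ} (hn : 0 < n) (M : ℕ) :
    pr (RF 0 ((2 * n : ℕ) : ℤ) 0 M) (wrapU (2 * n) M) ≤
      ∏ k ∈ range n, ((3 * k + 1 : ℝ) / (3 * k + 2)) := by
  have h1 := tendsto_avg hn
  have h2 := (Complex.continuous_re.tendsto _).comp h1
  have h3 : (∏ k ∈ range n, ((3 * k + 1 : ℂ) / (3 * k + 2))).re
      = ∏ k ∈ range n, ((3 * k + 1 : ℝ) / (3 * k + 2)) := by
    rw [← Complex.ofReal_re (∏ k ∈ range n, ((3 * k + 1 : ℝ) / (3 * k + 2)))]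
    congr 1
    push_cast
    rfl
  rw [h3] at h2
  refine ge_of_tendsto h2 ?_
  filter_upwards [eventually_ge_atTop M] with M' hM'
  exact (HPA.pr_wrapU_mono (by omega) hM').trans (HPA.pr_wrapU_le_avg hn M')

end Pool.Agent.Perc
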