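import Pool.Agent.Lib.MP_6bd702_perh.HPA
import Pool.Agent.Lib.MP_6bd702_perc.Planar

/-!
# Half-plane: an arm and four crossings give a wrapping cluster (task HPB)
-/

set_option autoImplicit false

namespace Pool.Agent.Perc

open Finset

namespace HPB

theorem mem_RF {x₀ x₁ y₀ y₁ : ℤ} {f : ℤ × ℤ} :
    f ∈ RF x₀ x₁ y₀ y₁ ↔ (x₀ ≤ f.1 ∧ f.1 < x₁) ∧ y₀ ≤ f.2 ∧ f.2 < y₁ := by
  unfold RF
  rw [mem_product, mem_Ico, mem_Ico]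

/-- A path in a horizontal strip which goes from the left of `x₀` to the right of `x₁` contains a
crossing of the rectangle. -/
theorem lr_sub {ω : Cfg} {x₀ x₁ y₀ y₁ : ℤ} {F : Set (ℤ × ℤ)} {u v : ℤ × ℤ}
    (hF : ∀ f ∈ F, y₀ ≤ f.2 ∧ f.2 < y₁) (hx : x₀ < x₁)
    (hu : u.1 ≤ x₀) (hv : x₁ ≤ v.1) (h : Conn ω F u v) :
    ∃ s t : ℤ × ℤ, s.1 = x₀ ∧ y₀ ≤ s.2 ∧ s.2 ≤ y₁ ∧ t.1 = x₁ ∧ Conn ω F u s ∧
      Conn ω (RF x₀ x₁ y₀ y₁) s t := by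
  have key : v.1 ≤ x₀ ∨ (v.1 ≤ x₁ ∧ ∃ s : ℤ × ℤ, s.1 = x₀ ∧ y₀ ≤ s.2 ∧ s.2 ≤ y₁ ∧
      Conn ω F u s ∧ Conn ω (RF x₀ x₁ y₀ y₁) s v) ∨
      (∃ s t : ℤ × ℤ, s.1 = x₀ ∧ y₀ ≤ s.2 ∧ s.2 ≤ y₁ ∧ t.1 = x₁ ∧ Conn ω F u s ∧
      Conn ω (RF x₀ x₁ y₀ y₁) s t) := by
    clear hv
    induction h with
    | refl => exact Or.inl hu
    | @tail w w' hw hb ih =>
      have hstep : (w'.1 = w.1 + 1 ∨ w'.1 = w.1 - 1) ∧ y₀ ≤ w.2 ∧ w.2 ≤ y₁ ∧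
          Bond ω {f | f.1 = min w.1 w'.1 ∧ y₀ ≤ f.2 ∧ f.2 < y₁} w w' := by
        obtain ⟨x, y, hm, hh⟩ := hb
        have hm' := hF _ hm
        simp only at hm'
        refine ⟨?_, ?_, ?_, x, y, ?_, hh⟩
        · rcases hh with ⟨_, ⟨rfl, rfl⟩ | ⟨rfl, rfl⟩⟩ | ⟨_, ⟨rfl, rfl⟩ | ⟨rfl, rfl⟩⟩
          · left; rfl
          · right; dsimp only; omega
          · left; rfl
          · right; dsimp only; omega
        · rcases hh with ⟨_, ⟨rfl, rfl⟩ | ⟨rfl, rfl⟩⟩ | ⟨_, ⟨rfl, rfl⟩ | ⟨rfl, rfl⟩⟩ <;>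
            simp only <;> omega
        · rcases hh with ⟨_, ⟨rfl, rfl⟩ | ⟨rfl, rfl⟩⟩ | ⟨_, ⟨rfl, rfl⟩ | ⟨rfl, rfl⟩⟩ <;>
            simp only <;> omega
        · change x = min w.1 w'.1 ∧ y₀ ≤ y ∧ y < y₁
          refine ⟨?_, hm'⟩
          rcases hh with ⟨_, ⟨rfl, rfl⟩ | ⟨rfl, rfl⟩⟩ | ⟨_, ⟨rfl, rfl⟩ | ⟨rfl, rfl⟩⟩ <;>
            simp only <;> omega
      obtain ⟨hx1, hw1, hw2, hb'⟩ := hstep
      have hbond : x₀ ≤ min w.1 w'.1 → min w.1 w'.1 < x₁ →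
          Conn ω (RF x₀ x₁ y₀ y₁) w w' := by
        intro h1 h2
        refine Relation.ReflTransGen.single ?_
        obtain ⟨x, y, hm, hh⟩ := hb'
        refine ⟨x, y, ?_, hh⟩
        have hm2 : x = min w.1 w'.1 ∧ y₀ ≤ y ∧ y < y₁ := hm
        rw [Finset.mem_coe, mem_RF]
        dsimp only
        omega
      rcases ih with h4 | ⟨h4, s, h5, h6, h7, h8, h9⟩ | h4
      · by_cases h5 : w'.1 ≤ x₀
        · exact Or.inl h5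
        · right; left
          have hwx : w.1 = x₀ := by omega
          exact ⟨by omega, w, hwx, hw1, hw2, hw, hbond (by omega) (by omega)⟩
      · by_cases h10 : w'.1 ≤ x₀
        · exact Or.inl h10
        · right
          by_cases h11 : w'.1 ≤ x₁
          · left
            exact ⟨h11, s, h5, h6, h7, h8, h9.trans (hbond (by omega) (by omega))⟩
          · right
            exact ⟨s, w, h5, h6, h7, by omega, h8, h9⟩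
      · exact Or.inr (Or.inr h4)
  rcases key with h4 | ⟨h4, s, h5, h6, h7, h8, h9⟩ | h4
  · omega
  · exact ⟨s, v, h5, h6, h7, by omega, h8, h9⟩
  · exact h4

/-- The swap of the coordinates. -/
theorem conn_sw {ω : Cfg} {F : Set (ℤ × ℤ)} {u v : ℤ × ℤ} (h : Conn ω F u v) :
    Conn (fun f : ℤ × ℤ => ω (f.2, f.1)) {f | (f.2, f.1) ∈ F} (u.2, u.1) (v.2, v.1) := by
  refine GridA.conn_lift (fun w : ℤ × ℤ => (w.2, w.1)) ?_ h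
  rintro w w' ⟨x, y, hm, hh⟩
  refine ⟨y, x, hm, ?_⟩
  rcases hh with ⟨h1, ⟨rfl, rfl⟩ | ⟨rfl, rfl⟩⟩ | ⟨h1, ⟨rfl, rfl⟩ | ⟨rfl, rfl⟩⟩
  · exact Or.inl ⟨h1, Or.inl ⟨rfl, rfl⟩⟩
  · exact Or.inl ⟨h1, Or.inr ⟨rfl, rfl⟩⟩
  · exact Or.inr ⟨h1, Or.inr ⟨rfl, rfl⟩⟩
  · exact Or.inr ⟨h1, Or.inl ⟨rfl, rfl⟩⟩

theorem bt_sub {ω : Cfg} {x₀ x₁ y₀ y₁ : ℤ} {F : Set (ℤ × ℤ)} {u v : ℤ × ℤ}
    (hF : ∀ f ∈ F, x₀ ≤ f.1 ∧ f.1 < x₁) (hy : y₀ < y₁)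
    (hu : u.2 ≤ y₀) (hv : y₁ ≤ v.2) (h : Conn ω F u v) :
    ∃ s t : ℤ × ℤ, s.2 = y₀ ∧ x₀ ≤ s.1 ∧ s.1 ≤ x₁ ∧ t.2 = y₁ ∧ Conn ω F u s ∧
      Conn ω (RF x₀ x₁ y₀ y₁) s t := by
  obtain ⟨s, t, h1, h2, h3, h4, h5, h6⟩ := lr_sub (ω := fun f : ℤ × ℤ => ω (f.2, f.1))
    (F := {f | (f.2, f.1) ∈ F}) (fun f hf => hF _ hf) hy hu hv (conn_sw h)
  refine ⟨(s.2, s.1), (t.2, t.1), h1, h2, h3, h4, conn_sw h5, ?_⟩
  refine Conn.mono ?_ (conn_sw h6)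
  intro f hf
  have hf2 : (f.2, f.1) ∈ (RF y₀ y₁ x₀ x₁ : Set (ℤ × ℤ)) := hf
  rw [Finset.mem_coe, mem_RF] at hf2 ⊢
  exact ⟨hf2.2, hf2.1⟩

/-- Two crossing paths of the same parity meet. -/
theorem cross {ω : Cfg} {x₀ x₁ y₀ y₁ : ℤ} {F F' G : Set (ℤ × ℤ)} {u v u' v' : ℤ × ℤ}
    (hx : x₀ < x₁) (hy : y₀ < y₁)
    (hF : ∀ f ∈ F, y₀ ≤ f.2 ∧ f.2 < y₁) (hF' : ∀ f ∈ F', x₀ ≤ f.1 ∧ f.1 < x₁)
    (hG : F ⊆ G) (hG' : F' ⊆ G) (hR : (RF x₀ x₁ y₀ y₁ : Set (ℤ × ℤ)) ⊆ G)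
    (hu : u.1 ≤ x₀) (hv : x₁ ≤ v.1) (hu' : u'.2 ≤ y₀) (hv' : y₁ ≤ v'.2)
    (hp : (u.1 + u.2) % 2 = (u'.1 + u'.2) % 2)
    (h : Conn ω F u v) (h' : Conn ω F' u' v') : Conn ω G u u' := by
  obtain ⟨s, t, a1, a2, a3, a4, a5, a6⟩ := lr_sub hF hx hu hv h
  obtain ⟨s', t', b1, b2, b3, b4, b5, b6⟩ := bt_sub hF' hy hu' hv' h'
  have hp1 := Conn.parity a5
  have hp2 := Conn.parity b5
  have hm := crossings_meet hx hy (u := s) (v := t) (u' := s') (v' := t') ⟨a1, a2, a3⟩ a4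
    ⟨b1, b2, b3⟩ b4 (by omega) a6 b6
  exact (Conn.mono hG a5).trans ((Conn.mono hR hm).trans (Conn.mono hG' b5).symm)

/-- Periodicity. -/
theorem per {L : ℕ} {ω : Cfg} {M : ℕ} {u v : ℤ × ℤ}
    (h : Conn (perC L ω) {f | 0 ≤ f.2 ∧ f.2 < M} u v) :
    Conn (perC L ω) {f | 0 ≤ f.2 ∧ f.2 < M} (u.1 + L, u.2) (v.1 + L, v.2) := by
  refine GridA.conn_lift (fun w : ℤ × ℤ => (w.1 + L, w.2)) ?_ h
  rintro w w' ⟨x, y, hm, hh⟩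
  refine ⟨x + L, y, hm, ?_⟩
  have e : perC L ω (x + L, y) = perC L ω (x, y) := by
    simp [perC]
  rw [e]
  rcases hh with ⟨h1, ⟨rfl, rfl⟩ | ⟨rfl, rfl⟩⟩ | ⟨h1, ⟨rfl, rfl⟩ | ⟨rfl, rfl⟩⟩
  · exact Or.inl ⟨h1, Or.inl ⟨rfl, by ext <;> dsimp only; ring⟩⟩
  · exact Or.inl ⟨h1, Or.inr ⟨by ext <;> dsimp only; ring, rfl⟩⟩
  · exact Or.inr ⟨h1, Or.inl ⟨rfl, by ext <;> dsimp only; ring⟩⟩
  · exact Or.inr ⟨h1, Or.inr ⟨by ext <;> dsimp only; ring, rfl⟩⟩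

/-- Periodicity, general window. -/
theorem per' {L : ℕ} {ω : Cfg} {x₀ x₁ y₀ y₁ : ℤ} {u v : ℤ × ℤ}
    (h : Conn (perC L ω) (RF x₀ x₁ y₀ y₁) u v) :
    Conn (perC L ω) (RF (x₀ + L) (x₁ + L) y₀ y₁) (u.1 + L, u.2) (v.1 + L, v.2) := by
  refine GridA.conn_lift (fun w : ℤ × ℤ => (w.1 + L, w.2)) ?_ h
  rintro w w' ⟨x, y, hm, hh⟩
  rw [Finset.mem_coe, mem_RF] at hm
  dsimp only at hm
  refine ⟨x + L, y, ?_, ?_⟩
  · rw [Finset.mem_coe, mem_RF]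
    dsimp only
    omega
  have e : perC L ω (x + L, y) = perC L ω (x, y) := by
    simp [perC]
  rw [e]
  rcases hh with ⟨h1, ⟨rfl, rfl⟩ | ⟨rfl, rfl⟩⟩ | ⟨h1, ⟨rfl, rfl⟩ | ⟨rfl, rfl⟩⟩
  · exact Or.inl ⟨h1, Or.inl ⟨rfl, by ext <;> dsimp only; ring⟩⟩
  · exact Or.inl ⟨h1, Or.inr ⟨by ext <;> dsimp only; ring, rfl⟩⟩
  · exact Or.inr ⟨h1, Or.inl ⟨rfl, by ext <;> dsimp only; ring⟩⟩
  · exact Or.inr ⟨h1, Or.inr ⟨by ext <;> dsimp only; ring, rfl⟩⟩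

/-- Rectangles in the strip. -/
theorem sub_strip {x₀ x₁ y₀ y₁ : ℤ} {M : ℕ} (h0 : 0 ≤ y₀) (h1 : y₁ ≤ M) :
    (RF x₀ x₁ y₀ y₁ : Set (ℤ × ℤ)) ⊆ {f | 0 ≤ f.2 ∧ f.2 < M} := by
  intro f hf
  rw [Finset.mem_coe, mem_RF] at hf
  exact ⟨by omega, by omega⟩

theorem inY {x₀ x₁ y₀ y₁ a b : ℤ} (h0 : a ≤ y₀) (h1 : y₁ ≤ b) :
    ∀ f ∈ (RF x₀ x₁ y₀ y₁ : Set (ℤ × ℤ)), a ≤ f.2 ∧ f.2 < b := by
  intro f hf
  rw [Finset.mem_coe, mem_RF] at hf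
  omega

theorem inX {x₀ x₁ y₀ y₁ a b : ℤ} (h0 : a ≤ x₀) (h1 : x₁ ≤ b) :
    ∀ f ∈ (RF x₀ x₁ y₀ y₁ : Set (ℤ × ℤ)), a ≤ f.1 ∧ f.1 < b := by
  intro f hf
  rw [Finset.mem_coe, mem_RF] at hf
  omega

end HPB

/-- `r = 2 k`, circumference `L = 8 k`. -/
theorem wrapU_of_arm {k : ℕ} (hk : 0 < k) {ω : Cfg}
    (h0 : perC (8 * k) ω ∈ hpArm ((2 * k : ℕ) : ℤ))
    (h1 : perC (8 * k) ω ∈ BT 0 (-(2 * k)) (-k) 0 (2 * k))
    (h2 : perC (8 * k) ω ∈ BT 0 k (2 * k) 0 (2 * k))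
    (h3 : perC (8 * k) ω ∈ LR 0 (-(2 * k)) (2 * k) k (2 * k))
    (h4 : perC (8 * k) ω ∈ LR 0 k (8 * k - k) 0 (2 * k)) : ω ∈ wrapU (8 * k) (2 * k) := by
  obtain ⟨w, w1, w2⟩ := h0
  obtain ⟨a, a', a1, a2, a3, a4, a5, a6⟩ := h1
  obtain ⟨b, b', b1, b2, b3, b4, b5, b6⟩ := h2
  obtain ⟨c, c', c1, c2, c3, c4, c5, c6⟩ := h3
  obtain ⟨d, d', d1, d2, d3, d4, d5, d6⟩ := h4
  set S : Set (ℤ × ℤ) := {f | 0 ≤ f.2 ∧ f.2 < ((2 * k : ℕ) : ℤ)} with hS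
  have hM : ((2 * k : ℕ) : ℤ) = 2 * (k : ℤ) := by push_cast; ring
  have hpw := Conn.parity w1
  dsimp only at hpw
  rw [hM] at w1 w2
  have hca : Conn (perC (8 * k) ω) S c a :=
    HPB.cross (x₀ := -(2 * k)) (x₁ := -k) (y₀ := k) (y₁ := 2 * k) (by omega) (by omega)
      (HPB.inY le_rfl le_rfl) (HPB.inX le_rfl le_rfl) (HPB.sub_strip (by omega) (by omega))
      (HPB.sub_strip (by omega) (by omega)) (HPB.sub_strip (by omega) (by omega))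
      (by omega) (by omega) (by omega) (by omega) (by omega) c6 a6
  have hcb : Conn (perC (8 * k) ω) S c b :=
    HPB.cross (x₀ := k) (x₁ := 2 * k) (y₀ := k) (y₁ := 2 * k) (by omega) (by omega)
      (HPB.inY le_rfl le_rfl) (HPB.inX le_rfl le_rfl) (HPB.sub_strip (by omega) (by omega))
      (HPB.sub_strip (by omega) (by omega)) (HPB.sub_strip (by omega) (by omega))
      (by omega) (by omega) (by omega) (by omega) (by omega) c6 b6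
  have hdb : Conn (perC (8 * k) ω) S d b :=
    HPB.cross (x₀ := k) (x₁ := 2 * k) (y₀ := 0) (y₁ := 2 * k) (by omega) (by omega)
      (HPB.inY le_rfl le_rfl) (HPB.inX le_rfl le_rfl) (HPB.sub_strip (by omega) (by omega))
      (HPB.sub_strip (by omega) (by omega)) (HPB.sub_strip (by omega) (by omega))
      (by omega) (by omega) (by omega) (by omega) (by omega) d6 b6
  have hda : Conn (perC (8 * k) ω) S d (a.1 + ((8 * k : ℕ) : ℤ), a.2) :=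
    HPB.cross (x₀ := 6 * k) (x₁ := 7 * k) (y₀ := 0) (y₁ := 2 * k) (by omega) (by omega)
      (HPB.inY le_rfl le_rfl) (HPB.inX (by push_cast; omega) (by push_cast; omega))
      (HPB.sub_strip (by omega) (by omega))
      (HPB.sub_strip (by omega) (by omega)) (HPB.sub_strip (by omega) (by omega))
      (by omega) (by omega) (by dsimp only; omega) (by dsimp only; omega)
      (by dsimp only; push_cast; omega) d6 (HPB.per' a6)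
  have h0a : Conn (perC (8 * k) ω) S (0, 0) a := by
    rcases w2 with w2 | w2 | w2
    · have hwa : Conn (perC (8 * k) ω) S w a :=
        HPB.cross (x₀ := -(2 * k)) (x₁ := -k) (y₀ := 0) (y₁ := 2 * k) (by omega) (by omega)
          (HPB.inY le_rfl le_rfl) (HPB.inX le_rfl le_rfl) (HPB.sub_strip (by omega) (by omega))
          (HPB.sub_strip (by omega) (by omega)) (HPB.sub_strip (by omega) (by omega))
          (by omega) (by dsimp only; omega) (by omega) (by omega) (by omega) w1.symm a6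
      exact (Conn.mono (HPB.sub_strip (by omega) (by omega)) w1).trans hwa
    · have hwb : Conn (perC (8 * k) ω) S (0, 0) b :=
        HPB.cross (x₀ := k) (x₁ := 2 * k) (y₀ := 0) (y₁ := 2 * k) (by omega) (by omega)
          (HPB.inY le_rfl le_rfl) (HPB.inX le_rfl le_rfl) (HPB.sub_strip (by omega) (by omega))
          (HPB.sub_strip (by omega) (by omega)) (HPB.sub_strip (by omega) (by omega))
          (by dsimp only; omega) (by omega) (by omega) (by omega) (by dsimp only; omega) w1 b6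
      exact hwb.trans (hcb.symm.trans hca)
    · have hwc : Conn (perC (8 * k) ω) S c (0, 0) :=
        HPB.cross (x₀ := -(2 * k)) (x₁ := 2 * k) (y₀ := k) (y₁ := 2 * k) (by omega) (by omega)
          (HPB.inY le_rfl le_rfl) (HPB.inX le_rfl le_rfl) (HPB.sub_strip (by omega) (by omega))
          (HPB.sub_strip (by omega) (by omega)) (HPB.sub_strip (by omega) (by omega))
          (by omega) (by omega) (by dsimp only; omega) (by omega) (by dsimp only; omega) c6 w1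
      exact hwc.symm.trans hca
  have h8 := HPB.per h0a
  dsimp only at h8
  rw [zero_add] at h8
  exact h0a.trans (hca.symm.trans (hcb.trans (hdb.symm.trans (hda.trans h8.symm))))

end Pool.Agent.Perc
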