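import Pool.Agent.Lib.MP_6bd702_perh.HPB
import Pool.Agent.Lib.MP_6bd702_perh.HPD

/-!
# Half-plane: upper bound for the arm (task HPC)

The hypothesis `hR` is the RSW theorem on the face grid (helper43, `rswF`).
-/

set_option autoImplicit false

namespace Pool.Agent.Perc

open Finset

namespace HPC

theorem mem_RF {x₀ x₁ y₀ y₁ : ℤ} {f : ℤ × ℤ} :
    f ∈ RF x₀ x₁ y₀ y₁ ↔ (x₀ ≤ f.1 ∧ f.1 < x₁) ∧ y₀ ≤ f.2 ∧ f.2 < y₁ := by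
  unfold RF
  rw [mem_product, mem_Ico, mem_Ico]

/-- The event that the periodic extension is in `A`. -/
def per (L : ℕ) (A : Set Cfg) : Set Cfg := {ω | perC L ω ∈ A}

theorem depOn_per {L : ℕ} (hL0 : 0 < L) {M : ℕ} {x₀ x₁ y₀ y₁ : ℤ} {A : Set Cfg}
    (hA : DepOn (RF x₀ x₁ y₀ y₁ : Set (ℤ × ℤ)) A) (h0 : 0 ≤ y₀) (h1 : y₁ ≤ M) :
    DepOn (RF 0 (L : ℤ) 0 M : Set (ℤ × ℤ)) (per L A) := by
  intro ω ω' h
  refine hA _ _ fun f hf => ?_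
  unfold perC
  apply h
  rw [mem_coe, mem_RF] at hf
  rw [mem_coe, mem_RF]
  refine ⟨⟨Int.emod_nonneg _ (by omega), Int.emod_lt_of_pos _ (by omega)⟩, ?_, ?_⟩
  · change 0 ≤ f.2
    omega
  · change f.2 < M
    omega

theorem incD_per {L : ℕ} (hL : L % 2 = 0) {A : Set Cfg} (hA : IncD (parD 0) A) :
    IncD (parD 0) (per L A) := by
  intro ω ω' h h'
  refine hA _ _ (fun f hf => ?_) h'
  have hp : parD 0 (f.1 % (L : ℤ), f.2) = parD 0 f := by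
    unfold parD
    have h1 : (f.1 % (L : ℤ) + f.2 - 0) % 2 = (f.1 + f.2 - 0) % 2 := by
      have h2 : f.1 % (L : ℤ) = f.1 - L * (f.1 / L) := by
        have := Int.emod_add_mul_ediv f.1 (L : ℤ)
        linarith
      obtain ⟨c, hc⟩ : (2 : ℤ) ∣ (L : ℤ) := by omega
      rw [h2, hc, mul_assoc]
      omega
    simp only [h1]
  have h2 := h (f.1 % (L : ℤ), f.2)
  unfold flip at h2 hf ⊢
  rw [hp] at h2
  exact h2 hf

theorem pr_per {L : ℕ} (hL0 : 0 < L) {M : ℕ} {x₀ x₁ y₀ y₁ : ℤ} {A : Set Cfg}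
    (hA : DepOn (RF x₀ x₁ y₀ y₁ : Set (ℤ × ℤ)) A) (h0 : 0 ≤ y₀) (h1 : y₁ ≤ M)
    (hx : x₁ - x₀ ≤ L) :
    pr (RF 0 (L : ℤ) 0 M) (per L A) = pr (RF x₀ x₁ y₀ y₁) A := by
  refine pr_comp (S := RF x₀ x₁ y₀ y₁) (S' := RF 0 (L : ℤ) 0 M)
    (f := fun x : ℤ × ℤ => (x.1 % (L : ℤ), x.2)) ?_ ?_ hA
  · intro x hx1 x' hx2 h
    rw [mem_coe, mem_RF] at hx1 hx2
    simp only [Prod.mk.injEq] at h
    obtain ⟨h3, h4⟩ := h
    ext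
    · have h6 : (L : ℤ) ∣ x.1 - x'.1 := Int.dvd_of_emod_eq_zero (by rw [Int.sub_emod, h3]; simp)
      have h7 : x.1 - x'.1 = 0 := by
        refine Int.eq_zero_of_abs_lt_dvd h6 ?_
        rw [abs_lt]
        constructor <;> omega
      omega
    · exact h4
  · intro x hx1
    rw [mem_RF] at hx1
    rw [mem_RF]
    refine ⟨⟨Int.emod_nonneg _ (by omega), Int.emod_lt_of_pos _ (by omega)⟩, ?_, ?_⟩
    · change 0 ≤ x.2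
      omega
    · change x.2 < M
      omega

theorem incD_LR (c x₀ x₁ y₀ y₁ : ℤ) : IncD (parD c) (LR c x₀ x₁ y₀ y₁) := by
  rintro ω ω' h ⟨u, v, h1, h2, h3, h4, h5, h6⟩
  exact ⟨u, v, h1, h2, h3, h4, h5, incD_conn c _ h5 ω ω' h h6⟩

/-- The arm event is decreasing in the radius. -/
theorem pArm_anti {r s : ℕ} (h : r ≤ s) : pArm (s : ℤ) ≤ pArm (r : ℤ) := by
  have hsub : RF (-(r : ℤ)) r 0 r ⊆ RF (-(s : ℤ)) s 0 s := by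
    intro f hf
    rw [mem_RF] at hf ⊢
    omega
  unfold pArm
  rw [← pr_eq_of_depOn (depOn_hpArm (r : ℤ)) hsub]
  refine pr_mono _ ?_
  rintro ω ⟨v, hv, hv2⟩
  obtain ⟨w, hw, hw2⟩ := Conn.toSides (x₀ := -(r : ℤ)) (x₁ := r) (y₀ := 0) (y₁ := r) hv (by
      intro f hf
      rw [mem_coe, mem_RF] at hf
      exact hf.2.1) (by
      refine ⟨?_, ?_, ?_, ?_⟩ <;> dsimp only <;> omega) (by
      rintro ⟨e1, e2, e3⟩
      omega)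
  exact ⟨w, Conn.mono Set.inter_subset_right hw, hw2⟩

/-- The bound at even radii. -/
theorem bound_even {k : ℕ} (hk : 0 < k) {cL cB : ℝ} (hcL : 0 < cL) (hcB : 0 < cB)
    (hLR : ∀ col x₀ x₁ y₀ y₁ : ℤ, x₀ < x₁ → y₀ < y₁ →
      x₁ - x₀ ≤ 4 * (y₁ - y₀) → cL ≤ pr (RF x₀ x₁ y₀ y₁) (LR col x₀ x₁ y₀ y₁))
    (hBT : ∀ col x₀ x₁ y₀ y₁ : ℤ, x₀ < x₁ → y₀ < y₁ →
      y₁ - y₀ ≤ 2 * (x₁ - x₀) → cB ≤ pr (RF x₀ x₁ y₀ y₁) (BT col x₀ x₁ y₀ y₁)) :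
    pArm ((2 * k : ℕ) : ℤ) * ((cB * cB) * (cL * cL)) ≤ ((4 * k : ℕ) : ℝ) ^ (-(1 / 3 : ℝ)) := by
  have hk' : (0 : ℤ) < k := by exact_mod_cast hk
  have h8 : 0 < 8 * k := by omega
  have h82 : 8 * k % 2 = 0 := by omega
  have hM : ((2 * k : ℕ) : ℤ) = 2 * k := by push_cast; ring
  have hL : ((8 * k : ℕ) : ℤ) = 8 * k := by push_cast; ring
  have d0 := depOn_hpArm ((2 * k : ℕ) : ℤ)
  have d1 := depOn_BT 0 (-(2 * k : ℤ)) (-k) 0 (2 * k)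
  have d2 := depOn_BT 0 (k : ℤ) (2 * k) 0 (2 * k)
  have d3 := depOn_LR 0 (-(2 * k : ℤ)) (2 * k) k (2 * k)
  have d4 := depOn_LR 0 (k : ℤ) (8 * k - k) 0 (2 * k)
  have e0 := depOn_per h8 (M := 2 * k) d0 le_rfl le_rfl
  have e1 := depOn_per h8 (M := 2 * k) d1 le_rfl (by omega)
  have e2 := depOn_per h8 (M := 2 * k) d2 le_rfl (by omega)
  have e3 := depOn_per h8 (M := 2 * k) d3 (by omega) (by omega)
  have e4 := depOn_per h8 (M := 2 * k) d4 le_rfl (by omega)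
  have i0 := incD_per h82 (PlanarB.incD_hpArm ((2 * k : ℕ) : ℤ))
  have i1 := incD_per h82 (PlanarB.incD_BT 0 (-(2 * k : ℤ)) (-k) 0 (2 * k))
  have i2 := incD_per h82 (PlanarB.incD_BT 0 (k : ℤ) (2 * k) 0 (2 * k))
  have i3 := incD_per h82 (incD_LR 0 (-(2 * k : ℤ)) (2 * k) k (2 * k))
  have i4 := incD_per h82 (incD_LR 0 (k : ℤ) (8 * k - k) 0 (2 * k))
  have p0 := pr_per h8 (M := 2 * k) d0 le_rfl le_rfl (by omega)
  have p1 := pr_per h8 (M := 2 * k) d1 le_rfl (by omega) (by omega)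
  have p2 := pr_per h8 (M := 2 * k) d2 le_rfl (by omega) (by omega)
  have p3 := pr_per h8 (M := 2 * k) d3 (by omega) (by omega) (by omega)
  have p4 := pr_per h8 (M := 2 * k) d4 le_rfl (by omega) (by omega)
  have q1 : cB ≤ pr (RF 0 ((8 * k : ℕ) : ℤ) 0 ((2 * k : ℕ) : ℤ))
      (per (8 * k) (BT 0 (-(2 * k : ℤ)) (-k) 0 (2 * k))) := by
    rw [p1]
    exact hBT _ _ _ _ _ (by omega) (by omega) (by omega)
  have q2 : cB ≤ pr (RF 0 ((8 * k : ℕ) : ℤ) 0 ((2 * k : ℕ) : ℤ))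
      (per (8 * k) (BT 0 (k : ℤ) (2 * k) 0 (2 * k))) := by
    rw [p2]
    exact hBT _ _ _ _ _ (by omega) (by omega) (by omega)
  have q3 : cL ≤ pr (RF 0 ((8 * k : ℕ) : ℤ) 0 ((2 * k : ℕ) : ℤ))
      (per (8 * k) (LR 0 (-(2 * k : ℤ)) (2 * k) k (2 * k))) := by
    rw [p3]
    exact hLR _ _ _ _ _ (by omega) (by omega) (by omega)
  have q4 : cL ≤ pr (RF 0 ((8 * k : ℕ) : ℤ) 0 ((2 * k : ℕ) : ℤ))
      (per (8 * k) (LR 0 (k : ℤ) (8 * k - k) 0 (2 * k))) := by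
    rw [p4]
    exact hLR _ _ _ _ _ (by omega) (by omega) (by omega)
  have q0 : pArm ((2 * k : ℕ) : ℤ) = pr (RF 0 ((8 * k : ℕ) : ℤ) 0 ((2 * k : ℕ) : ℤ))
      (per (8 * k) (hpArm ((2 * k : ℕ) : ℤ))) := p0.symm
  have h12 := harris (parD 0) e1 e2 i1 i2
  have h34 := harris (parD 0) e3 e4 i3 i4
  have h14 := harris (parD 0) (PlanarB.depOn_inter e1 e2) (PlanarB.depOn_inter e3 e4)
    (PlanarB.incD_inter i1 i2) (PlanarB.incD_inter i3 i4)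
  have h04 := harris (parD 0) e0
    (PlanarB.depOn_inter (PlanarB.depOn_inter e1 e2) (PlanarB.depOn_inter e3 e4)) i0
    (PlanarB.incD_inter (PlanarB.incD_inter i1 i2) (PlanarB.incD_inter i3 i4))
  have r12 : cB * cB ≤ _ := (mul_le_mul q1 q2 hcB.le (pr_nonneg _ _)).trans h12
  have r34 : cL * cL ≤ _ := (mul_le_mul q3 q4 hcL.le (pr_nonneg _ _)).trans h34
  have r14 : (cB * cB) * (cL * cL) ≤ _ :=
    (mul_le_mul r12 r34 (mul_nonneg hcL.le hcL.le) (pr_nonneg _ _)).trans h14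
  rw [q0]
  refine (mul_le_mul_of_nonneg_left r14 (pr_nonneg _ _)).trans (h04.trans ?_)
  have hw := pr_wrapU_le (n := 4 * k) (by omega) (2 * k)
  rw [show 2 * (4 * k) = 8 * k by ring] at hw
  refine (pr_mono _ ?_).trans (hw.trans (prod_le (by omega)))
  rintro ω ⟨w0, ⟨w1, w2⟩, w3, w4⟩
  exact wrapU_of_arm hk w0 w1 w2 w3 w4

end HPC

theorem pArm_le (hLR : ∀ k : ℕ, ∃ c : ℝ, 0 < c ∧ ∀ col x₀ x₁ y₀ y₁ : ℤ, x₀ < x₁ → y₀ < y₁ →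
      x₁ - x₀ ≤ k * (y₁ - y₀) → c ≤ pr (RF x₀ x₁ y₀ y₁) (LR col x₀ x₁ y₀ y₁))
    (hBT : ∀ k : ℕ, ∃ c : ℝ, 0 < c ∧ ∀ col x₀ x₁ y₀ y₁ : ℤ, x₀ < x₁ → y₀ < y₁ →
      y₁ - y₀ ≤ k * (x₁ - x₀) → c ≤ pr (RF x₀ x₁ y₀ y₁) (BT col x₀ x₁ y₀ y₁)) :
    ∃ C : ℝ, ∀ r : ℕ, 0 < r → pArm r ≤ C * (r : ℝ) ^ (-(1 / 3 : ℝ)) := by
  obtain ⟨cL, hcL, hL⟩ := hLR 4
  obtain ⟨cB, hcB, hB⟩ := hBT 2
  have hc : 0 < (cB * cB) * (cL * cL) := mul_pos (mul_pos hcB hcB) (mul_pos hcL hcL)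
  refine ⟨1 + 1 / ((cB * cB) * (cL * cL)), fun r hr => ?_⟩
  have hr0 : (0 : ℝ) < r := by exact_mod_cast hr
  have hrp : 0 < (r : ℝ) ^ (-(1 / 3 : ℝ)) := Real.rpow_pos_of_pos hr0 _
  have h1c : 0 < 1 / ((cB * cB) * (cL * cL)) := one_div_pos.2 hc
  rcases Nat.lt_or_ge r 2 with h2 | h2
  · have hr1 : r = 1 := by omega
    subst hr1
    rw [Nat.cast_one (R := ℝ), Real.one_rpow, mul_one]
    have := pr_le_one (RF (-((1 : ℕ) : ℤ)) ((1 : ℕ) : ℤ) 0 ((1 : ℕ) : ℤ)) (hpArm ((1 : ℕ) : ℤ))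
    exact this.trans (by linarith)
  · have hk : 0 < r / 2 := by omega
    have h3 := HPC.bound_even hk hcL hcB
      (fun col x₀ x₁ y₀ y₁ a b c => hL col x₀ x₁ y₀ y₁ a b (by exact_mod_cast c))
      (fun col x₀ x₁ y₀ y₁ a b c => hB col x₀ x₁ y₀ y₁ a b (by exact_mod_cast c))
    have h4 : pArm (r : ℤ) ≤ pArm ((2 * (r / 2) : ℕ) : ℤ) := HPC.pArm_anti (by omega)
    have h5 : ((4 * (r / 2) : ℕ) : ℝ) ^ (-(1 / 3 : ℝ)) ≤ (r : ℝ) ^ (-(1 / 3 : ℝ)) := by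
      refine Real.rpow_le_rpow_of_nonpos hr0 ?_ (by norm_num)
      have : r ≤ 4 * (r / 2) := by omega
      exact_mod_cast this
    have h6 : pArm (r : ℤ) * ((cB * cB) * (cL * cL)) ≤ (r : ℝ) ^ (-(1 / 3 : ℝ)) :=
      (mul_le_mul_of_nonneg_right h4 hc.le).trans (h3.trans h5)
    have h7 : pArm (r : ℤ) ≤ (r : ℝ) ^ (-(1 / 3 : ℝ)) * (1 / ((cB * cB) * (cL * cL))) := by
      rw [mul_one_div, le_div_iff₀ hc]
      exact h6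
    rw [add_mul, one_mul]
    linarith [mul_comm ((r : ℝ) ^ (-(1 / 3 : ℝ))) (1 / ((cB * cB) * (cL * cL)))]

end Pool.Agent.Perc
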