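import Pool.Agent.Lib.MP_6bd702_perh.HPDefs
import Pool.Agent.Lib.MP_6bd702_perc.Dict
import Pool.Agent.Lib.MP_6bd702_perc.CylArmB
import Pool.Agent.Lib.MP_6bd702_perc.CylArmC

/-!
# Half-plane: translation to the square lattice (task HPE)
-/

set_option autoImplicit false

namespace Pool.Agent.Perc

open Finset

namespace HPE

/-- The open edges of `E`. -/
noncomputable def cfgS (E : Finset Edg) (ω : Cfg) : Finset Edg :=
  E.filter fun e => ω (phiE e) = !e.2.2

theorem mem_cfgS {E : Finset Edg} {ω : Cfg} {e : Edg} :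
    e ∈ cfgS E ω ↔ e ∈ E ∧ ω (phiE e) = !e.2.2 := by
  unfold cfgS
  rw [Finset.mem_filter]

open Classical in
/-- The inverse map: the window faces with value `true`. -/
noncomputable def jE (E : Finset Edg) (U : Finset Edg) : Finset (ℤ × ℤ) :=
  (E.filter fun e => decide (e ∈ U) = !e.2.2).image phiE

theorem mem_jE {E U : Finset Edg} {e : Edg} (he : e ∈ E) :
    phiE e ∈ jE E U ↔ decide (e ∈ U) = !e.2.2 := by
  classical
  rw [jE, Finset.mem_image]
  constructor
  · rintro ⟨e', he', h⟩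
    rw [← phiE_injective h]
    exact (Finset.mem_filter.1 he').2
  · intro h
    exact ⟨e, Finset.mem_filter.2 ⟨he, h⟩, rfl⟩

theorem mem_cfgS_cfg {E : Finset Edg} {T : Finset (ℤ × ℤ)} {e : Edg} :
    e ∈ cfgS E (cfg T) ↔ e ∈ E ∧ decide (phiE e ∈ T) = !e.2.2 := by
  rw [mem_cfgS]
  rfl

theorem right_inv {E U : Finset Edg} (hU : U ⊆ E) : cfgS E (cfg (jE E U)) = U := by
  ext e
  rw [mem_cfgS_cfg]
  constructor
  · rintro ⟨he, h⟩
    by_contra hcon
    have h1 := mem_jE (U := U) he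
    rw [decide_eq_false hcon] at h1
    cases hb : e.2.2
    · rw [hb] at h1 h
      simp only [Bool.not_false, decide_eq_true_eq] at h
      exact absurd (h1.1 h) (by simp)
    · rw [hb] at h1 h
      simp only [Bool.not_true, decide_eq_false_iff_not] at h
      exact h (h1.2 (by simp))
  · intro he
    refine ⟨hU he, ?_⟩
    have h1 := mem_jE (U := U) (hU he)
    rw [decide_eq_true he] at h1
    cases hb : e.2.2
    · rw [hb] at h1
      simpa using h1
    · rw [hb] at h1
      simpa using h1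

theorem left_inv {E : Finset Edg} {T : Finset (ℤ × ℤ)} (hT : T ⊆ E.image phiE) :
    jE E (cfgS E (cfg T)) = T := by
  classical
  have key : ∀ e ∈ E, (phiE e ∈ jE E (cfgS E (cfg T)) ↔ phiE e ∈ T) := by
    intro e he
    rw [mem_jE he]
    by_cases h : phiE e ∈ T
    · cases hb : e.2.2
      · have : e ∈ cfgS E (cfg T) := mem_cfgS_cfg.2 ⟨he, by rw [hb]; simpa using h⟩
        simp [this, h]
      · have : e ∉ cfgS E (cfg T) := fun h' => by
          have := (mem_cfgS_cfg.1 h').2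
          rw [hb] at this
          simp [h] at this
        simp [this, h]
    · cases hb : e.2.2
      · have : e ∉ cfgS E (cfg T) := fun h' => by
          have := (mem_cfgS_cfg.1 h').2
          rw [hb] at this
          simp [h] at this
        simp [this, h]
      · have : e ∈ cfgS E (cfg T) := mem_cfgS_cfg.2 ⟨he, by rw [hb]; simpa using h⟩
        simp [this, h]
  ext f
  constructor
  · intro hf
    have hf' := hf
    rw [jE, Finset.mem_image] at hf'
    obtain ⟨e, he, rfl⟩ := hf'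
    exact (key e (Finset.mem_filter.1 he).1).1 hf
  · intro hf
    obtain ⟨e, he, rfl⟩ := Finset.mem_image.1 (hT hf)
    exact (key e he).2 hf

theorem depOn_cfgS (E : Finset Edg) (A : Set (Finset Edg)) :
    DepOn (E.image phiE : Finset (ℤ × ℤ)) {ω | cfgS E ω ∈ A} := by
  intro ω ω' h
  have : cfgS E ω = cfgS E ω' := by
    rw [cfgS, cfgS]
    refine Finset.filter_congr fun e he => ?_
    rw [h (phiE e) (Finset.mem_coe.2 (Finset.mem_image_of_mem _ he))]
  show cfgS E ω ∈ A ↔ cfgS E ω' ∈ A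
  rw [this]

open Classical in
/-- The law of the open edges is uniform. -/
theorem pr_cfgS {E : Finset Edg} {S : Finset (ℤ × ℤ)} (hS : ∀ e ∈ E, phiE e ∈ S)
    (A : Set (Finset Edg)) :
    pr S {ω | cfgS E ω ∈ A} = ((E.powerset.filter fun T => T ∈ A).card : ℝ) / 2 ^ E.card := by
  have hsub : E.image phiE ⊆ S := by
    intro f hf
    obtain ⟨e, he, rfl⟩ := Finset.mem_image.1 hf
    exact hS e he
  rw [pr_eq_of_depOn (depOn_cfgS E A) hsub, pr, Finset.card_image_of_injective _
    phiE_injective]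
  congr 2
  refine Finset.card_bij' (fun T _ => cfgS E (cfg T)) (fun U _ => jE E U) ?_ ?_ ?_ ?_
  · intro T hT
    rw [Finset.mem_filter] at hT ⊢
    exact ⟨Finset.mem_powerset.2 (Finset.filter_subset _ _), hT.2⟩
  · intro U hU
    rw [Finset.mem_filter, Finset.mem_powerset] at hU
    rw [Finset.mem_filter, Finset.mem_powerset]
    refine ⟨Finset.image_subset_image (Finset.filter_subset _ _), ?_⟩
    show cfgS E (cfg (jE E U)) ∈ A
    rw [right_inv hU.1]
    exact hU.2
  · intro T hT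
    rw [Finset.mem_filter, Finset.mem_powerset] at hT
    exact left_inv hT.1
  · intro U hU
    rw [Finset.mem_filter, Finset.mem_powerset] at hU
    exact right_inv hU.1

theorem mem_HPV {n : ℕ} {v : ℤ × ℤ} : v ∈ HPV n ↔
    v.2 ≤ v.1 ∧ -(n : ℤ) ≤ v.1 ∧ v.1 ≤ n ∧ -(n : ℤ) ≤ v.2 ∧ v.2 ≤ n := Iff.rfl

theorem mem_hpE {n : ℕ} {e : Edg} : e ∈ hpE n ↔ tl e ∈ HPV n ∧ hd e ∈ HPV n := by
  classical
  unfold hpE
  rw [Finset.mem_filter, Finset.mem_product, Finset.mem_product, Finset.mem_Icc, Finset.mem_Icc]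
  constructor
  · exact fun h => h.2
  · intro h
    have h1 := mem_HPV.1 h.1
    simp only [tl] at h1
    exact ⟨⟨⟨h1.2.1, h1.2.2.1⟩, ⟨h1.2.2.2.1, h1.2.2.2.2⟩, Finset.mem_univ _⟩, h⟩

theorem phiE_mem {n : ℕ} {e : Edg} (he : e ∈ hpE n) :
    phiE e ∈ RF (-(2 * n)) (2 * n) 0 (2 * n) := by
  obtain ⟨h1, h2⟩ := mem_hpE.1 he
  rw [mem_HPV] at h1 h2
  obtain ⟨a, b, c⟩ := e
  simp only [RF, Finset.mem_product, Finset.mem_Ico]
  cases c
  · simp only [tl, hd, phiE, Bool.false_eq_true, if_false] at h1 h2 ⊢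
    omega
  · simp only [tl, hd, phiE, if_true] at h1 h2 ⊢
    omega

/-- The event of `hpP`. -/
def arm (n : ℕ) : Set (Finset Edg) :=
  {T | ∃ v ∈ clV T (0, 0), v.1 = n ∨ v.1 = -(n : ℤ) ∨ v.2 = n ∨ v.2 = -(n : ℤ)}

theorem hpP_eq (n : ℕ) :
    hpP n = pr (RF (-(2 * n)) (2 * n) 0 (2 * n)) {ω | cfgS (hpE n) ω ∈ arm n} := by
  classical
  rw [pr_cfgS (fun e he => phiE_mem he), hpP]
  rfl

/-- One step on the face grid, seen in the square lattice. -/
theorem step {ω : Cfg} {F : Set (ℤ × ℤ)} (hF : ∀ f ∈ F, 0 ≤ f.2) {w z' : ℤ × ℤ}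
    (h : Bond ω F (phiV w) z') :
    ∃ (e : Edg) (w' : ℤ × ℤ), ((tl e = w ∧ Perc.hd e = w') ∨ (tl e = w' ∧ Perc.hd e = w)) ∧
      ω (phiE e) = (!e.2.2) ∧ z' = phiV w' ∧ w'.2 ≤ w'.1 ∧
      w.1 - 1 ≤ w'.1 ∧ w'.1 ≤ w.1 + 1 ∧ w.2 - 1 ≤ w'.2 ∧ w'.2 ≤ w.2 + 1 := by
  obtain ⟨x, y, hm, h⟩ := h
  have hy : 0 ≤ y := hF _ hm
  rcases h with ⟨hs, ⟨h1, h2⟩ | ⟨h1, h2⟩⟩ | ⟨hs, ⟨h1, h2⟩ | ⟨h1, h2⟩⟩
  · have e1 := congrArg Prod.fst h1
    have e2 := congrArg Prod.snd h1
    simp only [phiV] at e1 e2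
    refine ⟨(w.1, w.2, false), (w.1 + 1, w.2), Or.inl ⟨by simp [tl], by simp [Perc.hd]⟩, ?_, ?_, ?_⟩
    · have : phiE (w.1, w.2, false) = (x, y) := by
        simp [phiE, e1, e2]
      rw [this, hs]
      rfl
    · rw [h2]
      simp only [phiV]
      ext
      · simp only
        omega
      · simp only
        omega
    · simp only
      omega
  · have e1 := congrArg Prod.fst h1
    have e2 := congrArg Prod.snd h1
    simp only [phiV] at e1 e2
    refine ⟨(w.1 - 1, w.2, false), (w.1 - 1, w.2), Or.inr ⟨by simp [tl], by simp [Perc.hd]⟩,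
      ?_, ?_, ?_⟩
    · have : phiE (w.1 - 1, w.2, false) = (x, y) := by
        simp only [phiE, Bool.false_eq_true, if_false]
        ext
        · simp only
          omega
        · simp only
          omega
      rw [this, hs]
      rfl
    · rw [h2]
      simp only [phiV]
      ext
      · simp only
        omega
      · simp only
        omega
    · simp only
      omega
  · have e1 := congrArg Prod.fst h1
    have e2 := congrArg Prod.snd h1
    simp only [phiV] at e1 e2
    refine ⟨(w.1, w.2, true), (w.1, w.2 + 1), Or.inl ⟨by simp [tl], by simp [Perc.hd]⟩, ?_, ?_, ?_⟩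
    · have : phiE (w.1, w.2, true) = (x, y) := by
        simp only [phiE, if_true]
        ext
        · simp only
          omega
        · simp only
          omega
      rw [this, hs]
      rfl
    · rw [h2]
      simp only [phiV]
      ext
      · simp only
        omega
      · simp only
        omega
    · simp only
      omega
  · have e1 := congrArg Prod.fst h1
    have e2 := congrArg Prod.snd h1
    simp only [phiV] at e1 e2
    refine ⟨(w.1, w.2 - 1, true), (w.1, w.2 - 1), Or.inr ⟨by simp [tl], by simp [Perc.hd]⟩,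
      ?_, ?_, ?_⟩
    · have : phiE (w.1, w.2 - 1, true) = (x, y) := by
        simp only [phiE, if_true]
        ext
        · simp only
          omega
        · simp only
          omega
      rw [this, hs]
      rfl
    · rw [h2]
      simp only [phiV]
      ext
      · simp only
        omega
      · simp only
        omega
    · simp only
      omega

/-- Following a path of the face grid in the half-plane box. -/
theorem inv {n : ℕ} {ω : Cfg} {F : Set (ℤ × ℤ)} (hF : ∀ f ∈ F, 0 ≤ f.2) {z : ℤ × ℤ}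
    (hz : Conn ω F (0, 0) z) :
    (∃ w, z = phiV w ∧ w ∈ HPV n ∧ w ∈ clV (cfgS (hpE n) ω) (0, 0)) ∨
      cfgS (hpE n) ω ∈ arm n := by
  induction hz with
  | refl =>
    refine Or.inl ⟨(0, 0), rfl, ?_, Relation.ReflTransGen.refl⟩
    rw [mem_HPV]
    simp
  | @tail z z' _ h ih =>
    rcases ih with ⟨w, rfl, hw, hwc⟩ | ih
    · obtain ⟨e, w', he, hst, hz', hle, b1, b2, b3, b4⟩ := step hF h
      have hw' := mem_HPV.1 hw
      by_cases hwb : w' ∈ HPV n
      · left
        refine ⟨w', hz', hwb, ?_⟩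
        have heb : e ∈ cfgS (hpE n) ω := by
          rw [mem_cfgS, mem_hpE]
          refine ⟨?_, hst⟩
          rcases he with ⟨h1, h2⟩ | ⟨h1, h2⟩
          · rw [h1, h2]
            exact ⟨hw, hwb⟩
          · rw [h1, h2]
            exact ⟨hwb, hw⟩
        exact Relation.ReflTransGen.tail hwc ⟨e, heb, he⟩
      · right
        refine ⟨w, hwc, ?_⟩
        by_contra hcon
        push Not at hcon
        apply hwb
        rw [mem_HPV]
        omega
    · exact Or.inr ih

theorem bond_of_adj {n : ℕ} {ω : Cfg} {u v : ℤ × ℤ} (h : AdjT (cfgS (hpE n) ω) u v) :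
    Bond ω {f | 0 ≤ f.2} (phiV u) (phiV v) := by
  have key : ∀ e ∈ cfgS (hpE n) ω, Bond ω {f | 0 ≤ f.2} (phiV (tl e)) (phiV (Perc.hd e)) := by
    intro e he
    obtain ⟨he, hst⟩ := mem_cfgS.1 he
    obtain ⟨h1, h2⟩ := mem_hpE.1 he
    rw [mem_HPV] at h1 h2
    obtain ⟨a, b, c⟩ := e
    cases c
    · simp only [tl, Perc.hd, phiE, Bool.false_eq_true, if_false, Bool.not_false] at h1 h2 hst ⊢
      refine ⟨a + b, a - b, ?_, Or.inl ⟨hst, Or.inl ⟨rfl, ?_⟩⟩⟩
      · show 0 ≤ a - b
        omega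
      · simp only [phiV]
        ext
        · simp only
          omega
        · simp only
          omega
    · simp only [tl, Perc.hd, phiE, if_true, Bool.not_true] at h1 h2 hst ⊢
      refine ⟨a + b, a - b - 1, ?_, Or.inr ⟨hst, Or.inl ⟨?_, ?_⟩⟩⟩
      · show 0 ≤ a - b - 1
        omega
      · simp only [phiV]
        ext
        · simp only
        · simp only
          omega
      · simp only [phiV]
        ext
        · simp only
          omega
        · simp only
          omega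
  obtain ⟨e, he, ⟨rfl, rfl⟩ | ⟨rfl, rfl⟩⟩ := h
  · exact key e he
  · exact Bond.symm (key e he)

theorem conn_of_clV {n : ℕ} {ω : Cfg} {v : ℤ × ℤ} (h : v ∈ clV (cfgS (hpE n) ω) (0, 0)) :
    Conn ω {f | 0 ≤ f.2} (0, 0) (phiV v) := by
  unfold clV at h
  simp only [Set.mem_ofPred_eq] at h
  induction h with
  | refl => exact Relation.ReflTransGen.refl
  | tail _ hb ih => exact Relation.ReflTransGen.tail ih (bond_of_adj hb)

theorem clV_mem {n : ℕ} {ω : Cfg} {v : ℤ × ℤ} (h : v ∈ clV (cfgS (hpE n) ω) (0, 0)) :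
    v ∈ HPV n := by
  unfold clV at h
  simp only [Set.mem_ofPred_eq] at h
  induction h with
  | refl =>
    rw [mem_HPV]
    simp
  | tail _ hb _ =>
    obtain ⟨e, he, h1 | h1⟩ := hb
    · rw [← h1.2]
      exact (mem_hpE.1 (mem_cfgS.1 he).1).2
    · rw [← h1.1]
      exact (mem_hpE.1 (mem_cfgS.1 he).1).1

end HPE

open HPE

theorem pArm_le_hpP {n : ℕ} (hn : 0 < n) : pArm (2 * n) ≤ hpP n := by
  rw [hpP_eq, pArm]
  refine pr_mono _ fun ω hω => ?_
  obtain ⟨z, hz, hzb⟩ := hω
  have hF : ∀ f ∈ (RF (-(2 * n)) (2 * n) 0 (2 * n) : Set (ℤ × ℤ)), 0 ≤ f.2 := by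
    intro f hf
    simp only [RF, coe_product, Set.mem_prod, coe_Ico, Set.mem_Ico] at hf
    exact hf.2.1
  rcases inv (n := n) hF hz with ⟨w, rfl, hw, hwc⟩ | h
  · rw [mem_HPV] at hw
    simp only [phiV] at hzb
    exact ⟨w, hwc, by omega⟩
  · exact h

theorem hpP_le_pArm {n : ℕ} (hn : 0 < n) : hpP n ≤ pArm n := by
  rw [hpP_eq, pArm]
  have hsub : RF (-(n : ℤ)) n 0 n ⊆ RF (-(2 * n)) (2 * n) 0 (2 * n) := by
    intro f hf
    simp only [RF, Finset.mem_product, Finset.mem_Ico] at hf ⊢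
    omega
  rw [← pr_eq_of_depOn (depOn_hpArm (n : ℤ)) hsub]
  refine pr_mono _ fun ω hω => ?_
  obtain ⟨v, hv, hvb⟩ := hω
  have hm := mem_HPV.1 (clV_mem hv)
  have hc := conn_of_clV hv
  obtain ⟨w, hw, hwb⟩ := Conn.toSides (x₀ := -(n : ℤ)) (x₁ := n) (y₀ := 0) (y₁ := n) hc
    (fun f hf => hf) (by simp only; omega) (by simp only [phiV]; omega)
  refine ⟨w, ?_, hwb⟩
  exact Conn.mono Set.inter_subset_right hw

/-- The half-plane one-arm probability is of the order `n ^ (-1 / 3)` (given RSW on the face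
grid). -/
theorem hpP_two_sided (hU : ∃ C : ℝ, ∀ r : ℕ, 0 < r → pArm r ≤ C * (r : ℝ) ^ (-(1 / 3 : ℝ))) :
    ∃ c C : ℝ, 0 < c ∧ ∀ n : ℕ, 1 ≤ n →
      c * (n : ℝ) ^ (-(1 / 3 : ℝ)) ≤ hpP n ∧ hpP n ≤ C * (n : ℝ) ^ (-(1 / 3 : ℝ)) := by
  obtain ⟨C, hC⟩ := hU
  refine ⟨(1 / 24 : ℝ) ^ (1 / 3 : ℝ), C, by positivity, fun n hn => ⟨?_, ?_⟩⟩
  · have h1 := (prod_ge (r := 2 * n) (by omega)).trans (pArm_ge (r := 2 * n) (by omega))
    have h2 := pArm_le_hpP (n := n) (by omega)
    have h3 : (((2 * n : ℕ) : ℤ)) = 2 * (n : ℤ) := by push_cast; ring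
    rw [h3] at h1
    refine le_trans ?_ (h1.trans h2)
    have hn' : (1 : ℝ) ≤ n := by exact_mod_cast hn
    have hn0 : (0 : ℝ) ≤ n := by linarith
    rw [Real.rpow_neg hn0, ← Real.inv_rpow hn0, ← Real.mul_rpow (by norm_num) (by positivity)]
    refine Real.rpow_le_rpow (by positivity) ?_ (by norm_num)
    push_cast
    rw [← one_div, div_mul_div_comm, one_mul]
    refine one_div_le_one_div_of_le (by linarith) (by linarith)
  · exact (hpP_le_pArm (by omega)).trans (hC n (by omega))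

end Pool.Agent.Perc
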