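import Pool.Agent.Lib.MP_6bd702_perh.HPC
import Pool.Agent.Lib.MP_6bd702_perh.HPE
import Pool.Agent.Lib.MP_6bd702_percw.RswB

/-!
# The half-plane one-arm probability is of the order `n ^ (-1 / 3)`
-/

set_option autoImplicit false

namespace Pool.Agent.Perc

theorem halfPlane_arm : ∃ c C : ℝ, 0 < c ∧ ∀ n : ℕ, 1 ≤ n →
    c * (n : ℝ) ^ (-(1 / 3 : ℝ)) ≤ hpP n ∧ hpP n ≤ C * (n : ℝ) ^ (-(1 / 3 : ℝ)) :=
  hpP_two_sided (pArm_le rswF rswF')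

end Pool.Agent.Perc
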